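import Mathlib

/-!
Part (c) of the question, with the factor `binom(2k,k)²` as posed, fails at every prime
`p ∈ {11, 13, 17, 19, 23, 29, 31}`, even modulo `p`.
-/

set_option autoImplicit false

namespace Pool.Agent.Results.MP_f8e877_nt.PartCFails

/-- `u ≡ v (mod p^m)` in the ring of rationals whose denominator is prime to `p`:
`u - v = p^m r` with the denominator of `r` not divisible by `p` -/
def CongMod (p m : ℕ) (u v : ℚ) : Prop := ∃ r : ℚ, ¬ p ∣ r.den ∧ u - v = (p : ℚ) ^ m * r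

/-- The coefficient of `x^n` in `(x² + b x + c)^n`:
`T_n(b,c) = ∑_{j ≤ n/2} binom(n,2j) binom(2j,j) b^(n-2j) c^j` -/
def T (n : ℕ) (b c : ℤ) : ℤ :=
  ∑ j ∈ Finset.range (n / 2 + 1), (n.choose (2 * j) : ℤ) * ((2 * j).choose j) *
    b ^ (n - 2 * j) * c ^ j

/-- The Legendre symbol `(a/p)` of an integer `a` modulo an odd prime `p`, by Euler's
criterion in the integers: `0` if `p ∣ a`, otherwise `1` or `-1` according to whether
`a` is a nonzero square modulo `p` or not. -/
def leg (a : ℤ) (p : ℕ) : ℤ :=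
  if a % p = 0 then 0 else if ∃ x ∈ Finset.range p, ((x : ℤ) ^ 2 - a) % p = 0 then 1 else -1

/-- The left-hand side `∑_{k<p} (35k+9) binom(2k,k)² (-512)^(-k) T_{3k}(6,1)` of (c) -/
def lhs (p : ℕ) : ℚ :=
  ∑ k ∈ Finset.range p, (35 * k + 9 : ℚ) * ((2 * k).choose k : ℚ) ^ 2 *
    ((T (3 * k) 6 1 : ℤ) : ℚ) / (-512) ^ k

/-- The right-hand side `(9/32) p (2/p) (25 + 7 (p/7))` of (c) -/
def rhs (p : ℕ) : ℚ := 9 / 32 * p * leg 2 p * (25 + 7 * leg p 7)

theorem not_congMod {p m : ℕ} (hp : p ≠ 0) {u v : ℚ} (h : p ∣ ((u - v) / (p : ℚ) ^ m).den) :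
    ¬ CongMod p m u v := by
  rintro ⟨r, hr, h1⟩
  apply hr
  have h2 : (u - v) / (p : ℚ) ^ m = r := by
    rw [h1]
    have : (p : ℚ) ^ m ≠ 0 := pow_ne_zero _ (by exact_mod_cast hp)
    field_simp
  rw [← h2]
  exact h

/-- The congruence (c) of the question (with the factor `B_k = binom(2k,k)²`, as posed) fails
for every prime `p` with `7 < p ≤ 31`, both modulo `p²` and modulo `p`. -/
theorem result : ∀ p ∈ ({11, 13, 17, 19, 23, 29, 31} : Finset ℕ), p.Prime ∧ 7 < p ∧
    ¬ CongMod p 2 (lhs p) (rhs p) ∧ ¬ CongMod p 1 (lhs p) (rhs p) := by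
  intro p hp
  simp only [Finset.mem_insert, Finset.mem_singleton] at hp
  rcases hp with rfl | rfl | rfl | rfl | rfl | rfl | rfl
  all_goals
    exact ⟨by norm_num, by norm_num, not_congMod (by norm_num) (by decide +kernel),
      not_congMod (by norm_num) (by decide +kernel)⟩

end Pool.Agent.Results.MP_f8e877_nt.PartCFails
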